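import Pool.Agent.Q211.ZD.Basic

/-!
# Project ZD (helper169): job COMM
-/

set_option autoImplicit false

namespace Pool.Agent.Q211.ZD

open Pool.Agent.Q169.ZD
open Pool.Agent.H496R3.ZS (Ell permIso dl dl_apply inner_dl_left)

noncomputable section

open scoped Classical

theorem proj_comm {V : Type} [NormedAddCommGroup V] [InnerProductSpace ℂ V] [CompleteSpace V]
    {P R : V →L[ℂ] V} (hP : ContinuousLinearMap.adjoint P = P) (h1 : ∀ x, P (R (P x)) = R (P x))
    (h2 : ∀ x, P (ContinuousLinearMap.adjoint R (P x)) = ContinuousLinearMap.adjoint R (P x)) :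
    P ∘L R = R ∘L P := by
  have e1 : P ∘L (R ∘L P) = R ∘L P := ContinuousLinearMap.ext h1
  have e2 : P ∘L (ContinuousLinearMap.adjoint R ∘L P) = ContinuousLinearMap.adjoint R ∘L P :=
    ContinuousLinearMap.ext h2
  have e3 := congrArg ContinuousLinearMap.adjoint e2
  rw [ContinuousLinearMap.adjoint_comp, ContinuousLinearMap.adjoint_comp,
    ContinuousLinearMap.adjoint_adjoint, hP] at e3
  rw [← e3, ← e1]
  exact (ContinuousLinearMap.comp_assoc _ _ _)

theorem comm (G : Type) [Group G] (E : Ext G) (I : Type) [Fintype I] (C : Cx E I)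
    (hr : S_RIGHT G E I C) (hp : S_PROJ G E I C) : S_COMM G E I C := by
  intro q hq
  obtain ⟨r1, r2, r3, r4⟩ := hr q hq
  obtain ⟨p1, p2, p3, -, -, -⟩ := hp q hq
  have hD : Comm E I q C.Dh := by
    unfold Cx.Dh
    refine comm_sum _ _ fun j _ => comm_sum _ _ fun k _ => comm_sum _ _ fun h hh => ?_
    have h0 : E.len h = 0 := C.D_len j k h (Finsupp.mem_support_iff.1 hh)
    refine comm_smul _ (comm_comp (comm_msk _ fun i g h => Iff.rfl) (comm_pm _ ?_))
    rw [E.len_inv, h0]
  refine ⟨⟨fun s hs => ?_, fun h hh => ?_⟩, hD, ⟨fun s hs => ?_, fun h hh => ?_⟩,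
    fun A => comm_msk _ fun i g h => Iff.rfl⟩
  · refine proj_comm p3 (fun x => p2 _ (r3 s hs _ (p1 x))) fun x => ?_
    rw [r1 s hs]
    exact p2 _ (r3 s hs _ (p1 x))
  · refine proj_comm p3 (fun x => p2 _ (r4 h hh _ (p1 x))) fun x => ?_
    rw [r2 h]
    exact p2 _ (r4 h⁻¹ (by rw [E.len_inv, hh]) _ (p1 x))
  · have h1 := congrArg ContinuousLinearMap.adjoint (hD.1 s hs)
    rw [ContinuousLinearMap.adjoint_comp, ContinuousLinearMap.adjoint_comp, r1 s hs] at h1
    exact h1.symm
  · have h1 := congrArg ContinuousLinearMap.adjoint (hD.2 h⁻¹ (by rw [E.len_inv, hh]))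
    rw [ContinuousLinearMap.adjoint_comp, ContinuousLinearMap.adjoint_comp, r2 h⁻¹, inv_inv] at h1
    exact h1.symm

end

end Pool.Agent.Q211.ZD
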