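import Pool.Agent.Q211.ZD.Basic

/-!
# Project ZD (helper169): job DPROP
-/

set_option autoImplicit false

namespace Pool.Agent.Q211.ZD

open Pool.Agent.Q169.ZD
open Pool.Agent.H496R3.ZS (Ell permIso dl dl_apply inner_dl_left)

noncomputable section

open scoped Classical

variable {G : Type} [Group G] {E : Ext G} {I : Type} [Fintype I] (C : Cx E I)

theorem Dh_apply (F : Ell (I × G)) (p : I × G) : C.Dh F p = dop C.D F p := by
  obtain ⟨i, g⟩ := p
  unfold Cx.Dh dop
  rw [sum_ev, Finset.sum_eq_single i]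
  · rw [sum_ev]
    refine Finset.sum_congr rfl fun k _ => ?_
    rw [sum_ev]
    refine Finset.sum_congr rfl fun h _ => ?_
    change ((C.D i k h : ℤ) : ℂ) * msk {p : I × G | p.1 = i}
      (pm (Equiv.prodCongr (Equiv.swap i k) (Equiv.mulLeft h⁻¹)) F) (i, g) = _
    have e : (pm (Equiv.prodCongr (Equiv.swap i k) (Equiv.mulLeft h⁻¹)) F) (i, g) = F (k, h⁻¹ * g) := by
      change F (Equiv.swap i k i, h⁻¹ * g) = _
      rw [Equiv.swap_apply_left]
    have hm : (i, g) ∈ {p : I × G | p.1 = i} := rfl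
    rw [msk_apply, if_pos hm, e]
  · intro j _ hj
    rw [sum_ev]
    refine Finset.sum_eq_zero fun k _ => ?_
    rw [sum_ev]
    refine Finset.sum_eq_zero fun h _ => ?_
    change ((C.D j k h : ℤ) : ℂ) * msk {p : I × G | p.1 = j}
      (pm (Equiv.prodCongr (Equiv.swap j k) (Equiv.mulLeft h⁻¹)) F) (i, g) = _
    have hm : (i, g) ∉ {p : I × G | p.1 = j} := fun h => hj (Eq.symm h)
    rw [msk_apply, if_neg hm, mul_zero]
  · intro h
    exact absurd (Finset.mem_univ _) h

/-- the sign -/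
def sg (i : I) : ℂ := if Even (C.deg i) then 1 else -1

theorem eps_apply (F : Ell (I × G)) (p : I × G) : C.eps F p = sg C p.1 * F p := by
  change msk {p : I × G | Even (C.deg p.1)} F p - msk {p : I × G | ¬ Even (C.deg p.1)} F p = _
  rw [msk_apply, msk_apply]
  unfold sg
  by_cases h : Even (C.deg p.1)
  · have h1 : p ∈ {p : I × G | Even (C.deg p.1)} := h
    have h2 : p ∉ {p : I × G | ¬ Even (C.deg p.1)} := fun h' => h' h
    rw [if_pos h1, if_neg h2, if_pos h, sub_zero, one_mul]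
  · have h1 : p ∉ {p : I × G | Even (C.deg p.1)} := h
    have h2 : p ∈ {p : I × G | ¬ Even (C.deg p.1)} := h
    rw [if_neg h1, if_pos h2, if_neg h, zero_sub, neg_one_mul]

theorem eps_adj : ContinuousLinearMap.adjoint C.eps = C.eps := by
  unfold Cx.eps
  rw [map_sub, adjoint_msk, adjoint_msk]

theorem sg_ne {j k : I} {h : G} (hD : C.D j k h ≠ 0) : sg C k = -sg C j := by
  have h1 := C.D_deg j k h hD
  unfold sg
  rw [h1]
  by_cases h2 : Even (C.deg k)
  · rw [if_pos h2, if_neg (by rw [Nat.not_even_iff_odd]; exact h2.add_one), neg_neg]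
  · rw [if_neg h2, if_pos (by
      rw [Nat.not_even_iff_odd] at h2
      exact h2.add_one)]

theorem eps_Dh : C.eps ∘L C.Dh = - (C.Dh ∘L C.eps) := by
  refine ContinuousLinearMap.ext fun F => ell_ext fun p => ?_
  change C.eps (C.Dh F) p = - (C.Dh (C.eps F) p)
  rw [eps_apply, Dh_apply, Dh_apply]
  unfold dop
  rw [Finset.mul_sum, ← Finset.sum_neg_distrib]
  refine Finset.sum_congr rfl fun k _ => ?_
  rw [Finset.mul_sum, ← Finset.sum_neg_distrib]
  refine Finset.sum_congr rfl fun h hh => ?_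
  rw [eps_apply, sg_ne C (Finsupp.mem_support_iff.1 hh)]
  ring

theorem dprop (G : Type) [Group G] (E : Ext G) (I : Type) [Fintype I] (C : Cx E I) :
    S_DPROP G E I C := by
  have hfs : FS C.Dh := by
    unfold Cx.Dh
    exact fs_sum _ _ fun j _ => fs_sum _ _ fun k _ => fs_sum _ _ fun h _ =>
      fs_smul _ (fs_comp (fs_msk _) (fs_pm _))
  refine ⟨Dh_apply C, ?_, ?_, hfs, ?_, ?_, eps_Dh C, ?_⟩
  · intro q hq F hF j t ht g hlt
    rw [Dh_apply, Dh_apply]
    unfold dop
    rw [Finset.mul_sum]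
    refine Finset.sum_congr rfl fun k _ => ?_
    rw [Finset.mul_sum]
    refine Finset.sum_congr rfl fun h hh => ?_
    have hD := Finsupp.mem_support_iff.1 hh
    have h0 : E.len h = 0 := C.D_len j k h hD
    have h0' : E.len h⁻¹ = 0 := by rw [E.len_inv, h0]
    have h1 : h⁻¹ * t * h ∈ C.T k := C.D_mir j k h hD t ht
    have h2 : h⁻¹ * t * h * (h⁻¹ * g) = h⁻¹ * (t * g) := by group
    have h3 := hF k _ h1 (h⁻¹ * g) (by
      rw [h2, len_zero_mul h0', len_zero_mul h0']
      exact hlt)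
    have h4 : q (h⁻¹ * t * h) = q t := by
      rw [hq.mul_zero h h0, hq.zero_mul h⁻¹ h0']
    rw [h2, h4] at h3
    change _ * F (k, h⁻¹ * (t * g)) = _ * (_ * F (k, h⁻¹ * g))
    rw [h3]
    ring
  · refine ContinuousLinearMap.ext fun F => ell_ext fun p => ?_
    change C.Dh (C.Dh F) p = 0
    have h1 : ((C.Dh F : Ell (I × G)) : I × G → ℂ) = dop C.D F := funext fun p => Dh_apply C F p
    rw [Dh_apply, h1, C.D_sq]
    rfl
  · unfold Cx.Ds Cx.Dh
    rw [map_sum]
    refine fs_sum _ _ fun j _ => ?_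
    rw [map_sum]
    refine fs_sum _ _ fun k _ => ?_
    rw [map_sum]
    refine fs_sum _ _ fun h _ => ?_
    rw [map_smulₛₗ, ContinuousLinearMap.adjoint_comp, adjoint_pm, adjoint_msk]
    exact fs_smul _ (fs_comp (fs_pm _) (fs_msk _))
  · exact fs_sub (fs_msk _) (fs_msk _)
  · have h1 := congrArg ContinuousLinearMap.adjoint (eps_Dh C)
    rw [ContinuousLinearMap.adjoint_comp, map_neg, ContinuousLinearMap.adjoint_comp, eps_adj] at h1
    unfold Cx.Ds
    rw [h1, neg_neg]

end

end Pool.Agent.Q211.ZD
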