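import Pool.Agent.Q169.ZD.Stm

/-!
# Project ZD (helper169): job UP
-/

set_option autoImplicit false

namespace Pool.Agent.Q211.ZD

open Pool.Agent.Q169.ZD
open Pool.Agent.H496R3.ZS (Ell permIso dl dl_apply inner_dl_left)

noncomputable section

open scoped Classical

variable {G : Type} [Group G] {E : Ext G} {I : Type} [Fintype I] (C : Cx E I)

theorem up_spec (j : I) (g : G) : C.up j g ∈ Subgroup.closure (C.T j) ∧
    ∃ m, (∀ t ∈ C.T j, E.len m < E.len (t * m)) ∧ g = C.up j g * m :=
  Classical.choose_spec (E.par_decomp (C.T j) (C.sub j) g)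

theorem up_mem (j : I) (g : G) : C.up j g ∈ Subgroup.closure (C.T j) := (up_spec C j g).1

theorem up_min (j : I) (g : G) : ∀ t ∈ C.T j,
    E.len ((C.up j g)⁻¹ * g) < E.len (t * ((C.up j g)⁻¹ * g)) := by
  obtain ⟨-, m, hm, hg⟩ := up_spec C j g
  have h : (C.up j g)⁻¹ * g = m := by
    rw [inv_mul_eq_iff_eq_mul]
    exact hg
  rw [h]
  exact hm

theorem par_unique (j : I) {u u' m m' : G} (hu : u ∈ Subgroup.closure (C.T j))
    (hu' : u' ∈ Subgroup.closure (C.T j)) (hm : ∀ t ∈ C.T j, E.len m < E.len (t * m))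
    (hm' : ∀ t ∈ C.T j, E.len m' < E.len (t * m')) (h : u * m = u' * m') : u = u' := by
  have h1 : m' = (u'⁻¹ * u) * m := by
    rw [mul_assoc, h, inv_mul_cancel_left]
  have h2 : m = (u⁻¹ * u') * m' := by
    rw [mul_assoc, ← h, inv_mul_cancel_left]
  have a1 := E.par_len (C.T j) (C.sub j) (u'⁻¹ * u) (mul_mem (inv_mem hu') hu) m hm
  have a2 := E.par_len (C.T j) (C.sub j) (u⁻¹ * u') (mul_mem (inv_mem hu) hu') m' hm'
  rw [← h1] at a1
  rw [← h2] at a2
  have h3 : E.len (u'⁻¹ * u) = 0 := by omega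
  by_contra hne
  have h4 : u'⁻¹ * u ≠ 1 := by
    intro h5
    exact hne (inv_mul_eq_one.1 h5).symm
  obtain ⟨t, -, ht⟩ := E.par_desc (C.T j) (C.sub j) (u'⁻¹ * u) (mul_mem (inv_mem hu') hu) h4
  omega

theorem up_unique (j : I) {g u m : G} (hu : u ∈ Subgroup.closure (C.T j))
    (hm : ∀ t ∈ C.T j, E.len m < E.len (t * m)) (h : g = u * m) : C.up j g = u := by
  refine par_unique C j (up_mem C j g) hu (up_min C j g) hm ?_
  rw [mul_inv_cancel_left, h]

theorem up_mul (j : I) (g : G) {v : G} (hv : v ∈ Subgroup.closure (C.T j)) :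
    C.up j (v * g) = v * C.up j g := by
  refine up_unique C j (mul_mem hv (up_mem C j g)) (up_min C j g) ?_
  rw [mul_assoc, mul_inv_cancel_left]

theorem one_min (j : I) : ∀ t ∈ C.T j, E.len 1 < E.len (t * 1) := by
  intro t ht
  rcases E.len_smul t (C.sub j ht) 1 with h | h
  · omega
  · rw [E.len_one] at h
    omega

theorem up_one (j : I) : C.up j 1 = 1 :=
  up_unique C j (one_mem _) (one_min C j) (mul_one 1).symm

theorem up_len (j : I) (g : G) {v : G} (hv : v ∈ Subgroup.closure (C.T j)) :
    E.len (v * g) = E.len (v * C.up j g) + E.len ((C.up j g)⁻¹ * g) := by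
  have h := E.par_len (C.T j) (C.sub j) (v * C.up j g) (mul_mem hv (up_mem C j g))
    ((C.up j g)⁻¹ * g) (up_min C j g)
  rw [mul_assoc, mul_inv_cancel_left] at h
  exact h

theorem up_lt (j : I) (g : G) {t : G} (ht : t ∈ C.T j) :
    E.len g < E.len (t * g) ↔ E.len (C.up j g) < E.len (t * C.up j g) := by
  have h1 := up_len C j g (one_mem (Subgroup.closure (C.T j)))
  rw [one_mul, one_mul] at h1
  have h2 := up_len C j g (Subgroup.subset_closure ht)
  omega

theorem inM_val {q : G → ℝ} (hq : Wt E q) {F : I × G → ℂ} (hF : InM C q F) (j : I) :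
    ∀ (n : ℕ) (u m : G), E.len u = n → u ∈ Subgroup.closure (C.T j) →
      (∀ t ∈ C.T j, E.len m < E.len (t * m)) →
      F (j, u * m) = ((Real.sqrt (q u) : ℝ) : ℂ) * F (j, m) := by
  intro n
  induction n using Nat.strong_induction_on with
  | _ n ih =>
    intro u m hn hu hm
    by_cases h1 : u = 1
    · rw [h1, one_mul, hq.one, Real.sqrt_one, Complex.ofReal_one, one_mul]
    · obtain ⟨t, ht, hlt⟩ := E.par_desc (C.T j) (C.sub j) u hu h1
      have htc : t ∈ Subgroup.closure (C.T j) := Subgroup.subset_closure ht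
      have htu : t * u ∈ Subgroup.closure (C.T j) := mul_mem htc hu
      have hu' : t * (t * u) = u := by rw [← mul_assoc, E.sq t (C.sub j ht), one_mul]
      have h2 := ih (E.len (t * u)) (by omega) (t * u) m rfl htu hm
      have p1 := E.par_len (C.T j) (C.sub j) (t * u) htu m hm
      have p2 := E.par_len (C.T j) (C.sub j) u hu m hm
      have h3 : E.len (t * u * m) < E.len (t * (t * u * m)) := by
        have : t * (t * u * m) = u * m := by
          rw [← mul_assoc, hu']
        rw [this]
        omega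
      have h4 := hF j t ht (t * u * m) h3
      have h5 : t * (t * u * m) = u * m := by
        rw [← mul_assoc, hu']
      rw [h5, h2] at h4
      have h6 : q u = q t * q (t * u) := by
        have := hq.smul t (C.sub j ht) (t * u) (by rw [hu']; exact hlt)
        rwa [hu'] at this
      rw [h4, h6, Real.sqrt_mul (hq.pos t).le, Complex.ofReal_mul, mul_assoc]

theorem up (G : Type) [Group G] (E : Ext G) (I : Type) [Fintype I] (C : Cx E I) : S_UP G E I C := by
  refine ⟨up_mem C, fun j g t ht => up_min C j g t ht, fun j g v hv => up_mul C j g hv, up_one C,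
    fun j g t ht => up_lt C j g ht, ?_⟩
  intro q hq F
  constructor
  · intro hF j g
    have h := inM_val C hq hF j _ (C.up j g) ((C.up j g)⁻¹ * g) rfl (up_mem C j g) (up_min C j g)
    rwa [mul_inv_cancel_left] at h
  · intro h j t ht g hlt
    have htc : t ∈ Subgroup.closure (C.T j) := Subgroup.subset_closure ht
    have h1 := h j (t * g)
    have h2 := h j g
    rw [up_mul C j g htc] at h1
    have h3 : (t * C.up j g)⁻¹ * (t * g) = (C.up j g)⁻¹ * g := by group
    rw [h3] at h1
    have h4 : q (t * C.up j g) = q t * q (C.up j g) :=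
      hq.smul t (C.sub j ht) _ ((up_lt C j g ht).1 hlt)
    rw [h1, h2, h4, Real.sqrt_mul (hq.pos t).le, Complex.ofReal_mul, mul_assoc]

end

end Pool.Agent.Q211.ZD
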