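import Pool.Agent.Q169.ZD.Stm

/-!
# Project ZD (helper169): closure properties
-/

set_option autoImplicit false

namespace Pool.Agent.Q211.ZD

open Pool.Agent.Q169.ZD
open Pool.Agent.H496R3.ZS (Ell permIso dl dl_apply inner_dl_left)

noncomputable section

open scoped Classical

variable {G : Type} [Group G] {E : Ext G} {I : Type} [Fintype I]

theorem sum_ev {X ι : Type} (s : Finset ι) (T : ι → Ell X →L[ℂ] Ell X) (F : Ell X) (p : X) :
    (∑ i ∈ s, T i) F p = ∑ i ∈ s, T i F p := by
  induction s using Finset.induction_on with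
  | empty => rfl
  | insert a s ha ih =>
    rw [Finset.sum_insert ha, Finset.sum_insert ha, ← ih]
    rfl

theorem len_zero_mul {h : G} (hh : E.len h = 0) (g : G) : E.len (h * g) = E.len g := by
  have h1 := E.len_mul h g
  have h2 := E.len_mul h⁻¹ (h * g)
  rw [E.len_inv, inv_mul_cancel_left] at h2
  omega

theorem len_mul_zero {h : G} (hh : E.len h = 0) (g : G) : E.len (g * h) = E.len g := by
  have h1 := E.len_mul g h
  have h2 := E.len_mul (g * h) h⁻¹
  rw [E.len_inv, mul_inv_cancel_right] at h2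
  omega

/-! ### operators preserving finite supports -/

theorem fs_add {X : Type} {x y : Ell X →L[ℂ] Ell X} (hx : FS x) (hy : FS y) : FS (x + y) := by
  intro F hF
  refine ((hx F hF).union (hy F hF)).subset fun p hp => ?_
  by_contra h
  rw [Set.mem_union, not_or, Function.notMem_support, Function.notMem_support] at h
  apply hp
  change x F p + y F p = 0
  rw [h.1, h.2, add_zero]

theorem fs_zero {X : Type} : FS (0 : Ell X →L[ℂ] Ell X) := by
  intro F _
  have : (Function.support fun p => ((0 : Ell X →L[ℂ] Ell X) F) p) = ∅ := by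
    ext p
    simp only [Function.mem_support, Set.mem_empty_iff_false, iff_false, not_not]
    rfl
  rw [this]
  exact Set.finite_empty

theorem fs_smul {X : Type} (c : ℂ) {x : Ell X →L[ℂ] Ell X} (hx : FS x) : FS (c • x) := by
  intro F hF
  refine (hx F hF).subset fun p hp => ?_
  intro h
  have h' : x F p = 0 := h
  apply hp
  change c * x F p = 0
  rw [h', mul_zero]

theorem fs_comp {X : Type} {x y : Ell X →L[ℂ] Ell X} (hx : FS x) (hy : FS y) : FS (x ∘L y) :=
  fun F hF => hx (y F) (hy F hF)

theorem fs_sum {X ι : Type} (s : Finset ι) (T : ι → Ell X →L[ℂ] Ell X) (h : ∀ i ∈ s, FS (T i)) :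
    FS (∑ i ∈ s, T i) := by
  induction s using Finset.induction_on with
  | empty => exact fs_zero
  | insert a s ha ih =>
    rw [Finset.sum_insert ha]
    exact fs_add (h a (Finset.mem_insert_self _ _)) (ih fun i hi => h i (Finset.mem_insert_of_mem hi))

theorem fs_msk {X : Type} (A : Set X) : FS (msk A) := by
  intro F hF
  refine hF.subset fun p hp => ?_
  intro h
  have h' : F p = 0 := h
  apply hp
  change msk A F p = 0
  rw [msk_apply]
  split_ifs
  · exact h'
  · rfl

theorem fs_pm {X : Type} (σ : Equiv.Perm X) : FS (pm σ) := by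
  intro F hF
  refine (hF.preimage σ.injective.injOn).subset fun p hp => ?_
  exact hp

theorem fs_sub {X : Type} {x y : Ell X →L[ℂ] Ell X} (hx : FS x) (hy : FS y) : FS (x - y) := by
  intro F hF
  refine ((hx F hF).union (hy F hF)).subset fun p hp => ?_
  by_contra h
  rw [Set.mem_union, not_or, Function.notMem_support, Function.notMem_support] at h
  apply hp
  change x F p - y F p = 0
  rw [h.1, h.2, sub_zero]

/-! ### operators which commute with the right operators -/

theorem rS_apply (q : G → ℝ) (s : G) (F : Ell (I × G)) (p : I × G) :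
    rS E I q s F p = ((Real.sqrt (q s) : ℝ) : ℂ) * F (p.1, p.2 * s) +
      ((q s - 1 : ℝ) : ℂ) * msk {p : I × G | E.len (p.2 * s) < E.len p.2} F p := rfl

theorem comm_add {q : G → ℝ} {x y : Ell (I × G) →L[ℂ] Ell (I × G)} (hx : Comm E I q x)
    (hy : Comm E I q y) : Comm E I q (x + y) := by
  refine ⟨fun s hs => ?_, fun h hh => ?_⟩
  · rw [ContinuousLinearMap.add_comp, ContinuousLinearMap.comp_add, hx.1 s hs, hy.1 s hs]
  · rw [ContinuousLinearMap.add_comp, ContinuousLinearMap.comp_add, hx.2 h hh, hy.2 h hh]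

theorem comm_zero {q : G → ℝ} : Comm E I q (0 : Ell (I × G) →L[ℂ] Ell (I × G)) := by
  refine ⟨fun s hs => ?_, fun h hh => ?_⟩
  · rw [ContinuousLinearMap.zero_comp, ContinuousLinearMap.comp_zero]
  · rw [ContinuousLinearMap.zero_comp, ContinuousLinearMap.comp_zero]

theorem comm_smul {q : G → ℝ} (c : ℂ) {x : Ell (I × G) →L[ℂ] Ell (I × G)} (hx : Comm E I q x) :
    Comm E I q (c • x) := by
  refine ⟨fun s hs => ?_, fun h hh => ?_⟩
  · rw [ContinuousLinearMap.smul_comp, ContinuousLinearMap.comp_smul, hx.1 s hs]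
  · rw [ContinuousLinearMap.smul_comp, ContinuousLinearMap.comp_smul, hx.2 h hh]

theorem comm_comp {q : G → ℝ} {x y : Ell (I × G) →L[ℂ] Ell (I × G)} (hx : Comm E I q x)
    (hy : Comm E I q y) : Comm E I q (x ∘L y) := by
  refine ⟨fun s hs => ?_, fun h hh => ?_⟩
  · rw [ContinuousLinearMap.comp_assoc, hy.1 s hs, ← ContinuousLinearMap.comp_assoc, hx.1 s hs,
      ContinuousLinearMap.comp_assoc]
  · rw [ContinuousLinearMap.comp_assoc, hy.2 h hh, ← ContinuousLinearMap.comp_assoc, hx.2 h hh,
      ContinuousLinearMap.comp_assoc]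

theorem comm_sum {ι : Type} {q : G → ℝ} (s : Finset ι) (T : ι → Ell (I × G) →L[ℂ] Ell (I × G))
    (h : ∀ i ∈ s, Comm E I q (T i)) : Comm E I q (∑ i ∈ s, T i) := by
  induction s using Finset.induction_on with
  | empty => exact comm_zero
  | insert a s ha ih =>
    rw [Finset.sum_insert ha]
    exact comm_add (h a (Finset.mem_insert_self _ _)) (ih fun i hi => h i (Finset.mem_insert_of_mem hi))

theorem comm_msk {q : G → ℝ} (A : Set (I × G)) (hA : ∀ i g h, (i, g * h) ∈ A ↔ (i, g) ∈ A) :
    Comm E I q (msk A) := by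
  refine ⟨fun s _ => ?_, fun h _ => ?_⟩
  · refine ContinuousLinearMap.ext fun F => ell_ext fun p => ?_
    obtain ⟨i, g⟩ := p
    change msk A (rS E I q s F) (i, g) = rS E I q s (msk A F) (i, g)
    rw [msk_apply, rS_apply, rS_apply, msk_apply, msk_apply, msk_apply, msk_apply]
    by_cases h : (i, g) ∈ A
    · rw [if_pos h, if_pos h, if_pos ((hA i g s).2 h)]
    · rw [if_neg h, if_neg h, if_neg fun h' => h ((hA i g s).1 h')]
      simp
  · refine ContinuousLinearMap.ext fun F => ell_ext fun p => ?_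
    obtain ⟨i, g⟩ := p
    change (if (i, g) ∈ A then F (i, g * h) else 0) = (if (i, g * h) ∈ A then F (i, g * h) else 0)
    by_cases h' : (i, g) ∈ A
    · rw [if_pos h', if_pos ((hA i g h).2 h')]
    · rw [if_neg h', if_neg fun h'' => h' ((hA i g h).1 h'')]

theorem comm_pm {q : G → ℝ} (τ : Equiv.Perm I) {h : G} (hh : E.len h = 0) :
    Comm E I q (pm (Equiv.prodCongr τ (Equiv.mulLeft h))) := by
  refine ⟨fun s _ => ?_, fun k _ => ?_⟩
  · refine ContinuousLinearMap.ext fun F => ell_ext fun p => ?_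
    obtain ⟨i, g⟩ := p
    change rS E I q s F (τ i, h * g) = rS E I q s (pm (Equiv.prodCongr τ (Equiv.mulLeft h)) F) (i, g)
    rw [rS_apply, rS_apply]
    have e : ((τ i, h * g) ∈ {p : I × G | E.len (p.2 * s) < E.len p.2}) ↔
        ((i, g) ∈ {p : I × G | E.len (p.2 * s) < E.len p.2}) := by
      change (E.len (h * g * s) < E.len (h * g)) ↔ (E.len (g * s) < E.len g)
      rw [mul_assoc, len_zero_mul hh, len_zero_mul hh]
    have e2 : (pm (Equiv.prodCongr τ (Equiv.mulLeft h)) F) (i, g * s) = F (τ i, h * g * s) := by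
      rw [mul_assoc]
      rfl
    have e3 : (pm (Equiv.prodCongr τ (Equiv.mulLeft h)) F) (i, g) = F (τ i, h * g) := rfl
    rw [msk_apply, msk_apply]
    congr 1
    · rw [e2]
    · congr 1
      by_cases h' : (i, g) ∈ {p : I × G | E.len (p.2 * s) < E.len p.2}
      · rw [if_pos h', if_pos (e.2 h'), e3]
      · rw [if_neg h', if_neg fun h'' => h' (e.1 h'')]
  · refine ContinuousLinearMap.ext fun F => ell_ext fun p => ?_
    obtain ⟨i, g⟩ := p
    change F (τ i, h * g * k) = F (τ i, h * (g * k))
    rw [mul_assoc]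

end

end Pool.Agent.Q211.ZD
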